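import Mathlib

set_option autoImplicit false

namespace Pool.Agent.H96Z.S4

open Equiv

/-- the 24 permutations of `Fin 4` -/
def permList : List (Perm (Fin 4)) :=
  [1, swap 0 1, swap 0 2, swap 0 3, swap 1 2, swap 1 3, swap 2 3,
   swap 0 1 * swap 2 3, swap 0 2 * swap 1 3, swap 0 3 * swap 1 2,
   swap 0 1 * swap 1 2, swap 1 2 * swap 0 1, swap 0 1 * swap 1 3, swap 1 3 * swap 0 1,
   swap 0 2 * swap 2 3, swap 2 3 * swap 0 2, swap 1 2 * swap 2 3, swap 2 3 * swap 1 2,
   swap 0 1 * swap 1 2 * swap 2 3, swap 0 1 * swap 1 3 * swap 3 2,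
   swap 0 2 * swap 2 1 * swap 1 3, swap 0 2 * swap 2 3 * swap 3 1,
   swap 0 3 * swap 3 1 * swap 1 2, swap 0 3 * swap 3 2 * swap 2 1]

theorem permList_nodup : permList.Nodup := by decide

theorem permList_univ : permList.toFinset = Finset.univ := by decide

theorem sum_perm {M : Type*} [AddCommMonoid M] (g : Perm (Fin 4) → M) :
    ∑ σ, g σ = (permList.map g).sum := by
  rw [← permList_univ, List.sum_toFinset _ permList_nodup]

/-- Amitsur-Levitzki for two by two matrices -/
theorem s4_matrix {F : Type*} [CommRing F] (A : Fin 4 → Matrix (Fin 2) (Fin 2) F) :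
    ∑ σ : Perm (Fin 4), ((Perm.sign σ : ℤˣ) : ℤ) • (A (σ 0) * (A (σ 1) * (A (σ 2) * A (σ 3)))) = 0 := by
  rw [sum_perm]
  simp only [permList, List.map_cons, List.map_nil, List.sum_cons, List.sum_nil, map_mul, map_one,
    Perm.mul_apply, Perm.one_apply]
  simp only [Perm.sign_swap', swap_apply_def]
  simp
  ext i j
  fin_cases i <;> fin_cases j <;> simp [Matrix.mul_apply, Fin.sum_univ_two] <;> ring

end Pool.Agent.H96Z.S4
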