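import Mathlib
import Pool.Agent.H96Z.S4

set_option autoImplicit false

namespace Pool.Agent.H96Z.Heis

abbrev K : Type := ZMod 3

instance : Fact (Nat.Prime 3) := ⟨Nat.prime_three⟩

/-- the three dimensional Heisenberg Lie algebra over the field with three elements -/
def H : Type := K × K × K

instance : AddCommGroup H := inferInstanceAs (AddCommGroup (K × K × K))
instance : Module K H := inferInstanceAs (Module K (K × K × K))

def mk (a b c : K) : H := (a, b, c)
def H.a (v : H) : K := Prod.fst v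
def H.b (v : H) : K := (Prod.snd v).1
def H.c (v : H) : K := (Prod.snd v).2

@[ext] theorem H.ext {u v : H} (ha : u.a = v.a) (hb : u.b = v.b) (hc : u.c = v.c) : u = v :=
  Prod.ext ha (Prod.ext hb hc)

@[simp] theorem mk_a (a b c : K) : (mk a b c).a = a := rfl
@[simp] theorem mk_b (a b c : K) : (mk a b c).b = b := rfl
@[simp] theorem mk_c (a b c : K) : (mk a b c).c = c := rfl
@[simp] theorem add_a (u v : H) : (u + v).a = u.a + v.a := rfl
@[simp] theorem add_b (u v : H) : (u + v).b = u.b + v.b := rfl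
@[simp] theorem add_c (u v : H) : (u + v).c = u.c + v.c := rfl
@[simp] theorem zero_a : (0 : H).a = 0 := rfl
@[simp] theorem zero_b : (0 : H).b = 0 := rfl
@[simp] theorem zero_c : (0 : H).c = 0 := rfl
@[simp] theorem smul_a (t : K) (v : H) : (t • v).a = t * v.a := rfl
@[simp] theorem smul_b (t : K) (v : H) : (t • v).b = t * v.b := rfl
@[simp] theorem smul_c (t : K) (v : H) : (t • v).c = t * v.c := rfl

instance : Bracket H H := ⟨fun u v => mk 0 0 (u.a * v.b - u.b * v.a)⟩

@[simp] theorem br_a (u v : H) : (⁅u, v⁆ : H).a = 0 := rfl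
@[simp] theorem br_b (u v : H) : (⁅u, v⁆ : H).b = 0 := rfl
@[simp] theorem br_c (u v : H) : (⁅u, v⁆ : H).c = u.a * v.b - u.b * v.a := rfl

instance : LieRing H where
  add_lie u v w := by ext <;> simp; ring
  lie_add u v w := by ext <;> simp; ring
  lie_self u := by ext <;> simp; ring
  leibniz_lie u v w := by ext <;> simp

instance : LieAlgebra K H where
  lie_smul t u v := by ext <;> simp; ring

/-- the `3`-mapping -/
def pmap (v : H) : H := mk 0 0 v.c

@[simp] theorem pmap_a (v : H) : (pmap v).a = 0 := rfl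
@[simp] theorem pmap_b (v : H) : (pmap v).b = 0 := rfl
@[simp] theorem pmap_c (v : H) : (pmap v).c = v.c := rfl

theorem cube (t : K) : t ^ 3 = t := ZMod.pow_card t

theorem pmap_smul (t : K) (v : H) : pmap (t • v) = t ^ 3 • pmap v := by
  rw [cube]; ext <;> simp

theorem lie_lie_zero (u v w : H) : ⁅u, ⁅v, w⁆⁆ = 0 := by ext <;> simp

theorem pmap_ad (u v : H) : (LieAlgebra.ad K H u ^ 3) v = ⁅pmap u, v⁆ := by
  have h : (LieAlgebra.ad K H u ^ 3) v = ⁅u, ⁅u, ⁅u, v⁆⁆⁆ := by
    simp [pow_succ]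
  rw [h]; ext <;> simp

theorem pmap_add (u v : H) : pmap (u + v) = pmap u + pmap v := by ext <;> simp

theorem three_eq_zero (A : Type) [Ring A] [Algebra K A] : (3 : A) = 0 := by
  have h : (3 : A) = algebraMap K A 3 := by rw [map_ofNat]
  have h3 : (3 : K) = 0 := by decide
  rw [h, h3, map_zero]

attribute [local instance 100] LieRing.ofAssociativeRing

abbrev U : Type := UniversalEnvelopingAlgebra K H

theorem iota_lie (u v : H) :
    UniversalEnvelopingAlgebra.ι K (⁅u, v⁆ : H) =
      UniversalEnvelopingAlgebra.ι K u * UniversalEnvelopingAlgebra.ι K v -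
        UniversalEnvelopingAlgebra.ι K v * UniversalEnvelopingAlgebra.ι K u := by
  rw [LieHom.map_lie]; rfl

theorem pmap_jacobson (u v : H) :
    UniversalEnvelopingAlgebra.ι K (pmap (u + v)) - UniversalEnvelopingAlgebra.ι K (pmap u)
        - UniversalEnvelopingAlgebra.ι K (pmap v)
      = (UniversalEnvelopingAlgebra.ι K u + UniversalEnvelopingAlgebra.ι K v) ^ 3
        - UniversalEnvelopingAlgebra.ι K u ^ 3 - UniversalEnvelopingAlgebra.ι K v ^ 3 := by
  have h1 := iota_lie u ⁅u, v⁆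
  have h2 := iota_lie v ⁅v, u⁆
  rw [lie_lie_zero, map_zero, iota_lie] at h1 h2
  have h3 := three_eq_zero U
  rw [pmap_add, map_add]
  set X := UniversalEnvelopingAlgebra.ι K u
  set Y := UniversalEnvelopingAlgebra.ι K v
  have key : (X + Y) ^ 3 - X ^ 3 - Y ^ 3 =
      (X * (X * Y - Y * X) - (X * Y - Y * X) * X) + (Y * (Y * X - X * Y) - (Y * X - X * Y) * Y)
        + 3 * (X * Y * X + Y * X * Y) := by noncomm_ring
  rw [key, ← h1, ← h2, h3]; simp

/-- the restricted enveloping algebra -/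
abbrev uL : Type := RingQuot (fun a b : U =>
  ∃ x : H, a = UniversalEnvelopingAlgebra.ι K x ^ 3 ∧ b = UniversalEnvelopingAlgebra.ι K (pmap x))

noncomputable def j (v : H) : uL := RingQuot.mkAlgHom K _ (UniversalEnvelopingAlgebra.ι K v)

theorem j_cube (v : H) : j v ^ 3 = j (pmap v) := by
  unfold j
  rw [← map_pow]
  exact RingQuot.mkAlgHom_rel K ⟨v, rfl, rfl⟩

theorem j_lie (u v : H) : j ⁅u, v⁆ = j u * j v - j v * j u := by
  unfold j
  rw [iota_lie, map_sub, map_mul, map_mul]

theorem j_zero : j 0 = 0 := by unfold j; simp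

noncomputable def X : uL := j (mk 1 0 0)
noncomputable def Y : uL := j (mk 0 1 0)
noncomputable def Z : uL := j (mk 0 0 1)

theorem X3 : X ^ 3 = 0 := by
  unfold X; rw [j_cube, ← j_zero]; rfl
theorem Y3 : Y ^ 3 = 0 := by
  unfold Y; rw [j_cube, ← j_zero]; rfl
theorem Z3 : Z ^ 3 = Z := by
  unfold Z; rw [j_cube]; rfl
theorem XY : X * Y = Y * X + Z := by
  have h := j_lie (mk 1 0 0) (mk 0 1 0)
  have h2 : (⁅mk 1 0 0, mk 0 1 0⁆ : H) = mk 0 0 1 := by ext <;> simp
  rw [h2] at h
  unfold X Y Z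
  rw [h]; abel
theorem XZ : X * Z = Z * X := by
  have h := j_lie (mk 1 0 0) (mk 0 0 1)
  have h2 : (⁅mk 1 0 0, mk 0 0 1⁆ : H) = 0 := by ext <;> simp
  rw [h2, j_zero] at h
  exact sub_eq_zero.1 h.symm
theorem YZ : Y * Z = Z * Y := by
  have h := j_lie (mk 0 1 0) (mk 0 0 1)
  have h2 : (⁅mk 0 1 0, mk 0 0 1⁆ : H) = 0 := by ext <;> simp
  rw [h2, j_zero] at h
  exact sub_eq_zero.1 h.symm

section Abstract

variable {A : Type} [Ring A] {x y z : A}

/-- the idempotent that becomes the first matrix unit -/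
def PP (x y z : A) : A := (z * z + z) * (x * x * (y * y))

theorem PP_y (hy : y ^ 3 = 0) : PP x y z * y = 0 := by
  have : PP x y z * y = (z * z + z) * (x * x) * y ^ 3 := by unfold PP; noncomm_ring
  rw [this, hy, mul_zero]

theorem x_PP (hx : x ^ 3 = 0) (hxz : x * z = z * x) : x * PP x y z = 0 := by
  have hc : Commute x (z * z + z) := by
    have : Commute x z := hxz
    exact (this.mul_right this).add_right this
  have : x * PP x y z = (z * z + z) * x ^ 3 * (y * y) := by
    unfold PP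
    rw [← mul_assoc, hc.eq]; noncomm_ring
  rw [this, hx]; simp

theorem PP_z (hz : z ^ 3 = z) (hxz : x * z = z * x) (hyz : y * z = z * y) :
    PP x y z * z = PP x y z := by
  have hx : Commute x z := hxz
  have hy : Commute y z := hyz
  have hc : Commute (x * x * (y * y)) z := (hx.mul_left hx).mul_left (hy.mul_left hy)
  unfold PP
  rw [mul_assoc, hc.eq, ← mul_assoc]
  congr 1
  have : (z * z + z) * z = z ^ 3 + z * z := by noncomm_ring
  rw [this, hz]; abel

theorem PP_PP (h3 : (3 : A) = 0) (hy : y ^ 3 = 0) (hz : z ^ 3 = z) (hxy : x * y = y * x + z)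
    (hxz : x * z = z * x) (hyz : y * z = z * y) : PP x y z * PP x y z = PP x y z := by
  have hPy : PP x y z * y = 0 := PP_y hy
  have hPz : PP x y z * z = PP x y z := PP_z hz hxz hyz
  have e1 : x * (y * y) = y * (y * x) + 2 * (y * z) := by
    calc x * (y * y) = (x * y) * y := by rw [mul_assoc]
      _ = (y * x + z) * y := by rw [hxy]
      _ = y * (x * y) + z * y := by noncomm_ring
      _ = y * (y * x) + 2 * (y * z) := by rw [hxy, ← hyz]; noncomm_ring
  have e2 : x * x * (y * y) = y * (y * (x * x) + 2 * (z * x) + 2 * (x * z)) + 2 * (z * z) := by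
    calc x * x * (y * y) = x * (y * (y * x) + 2 * (y * z)) := by rw [mul_assoc, e1]
      _ = (x * (y * y)) * x + 2 * ((x * y) * z) := by noncomm_ring
      _ = y * (y * (x * x) + 2 * (z * x) + 2 * (x * z)) + 2 * (z * z) := by
        rw [e1, hxy]; noncomm_ring
  set P := PP x y z with hP
  calc P * P = P * ((z * z + z) * (x * x * (y * y))) := rfl
    _ = (P * z * z + P * z) * (x * x * (y * y)) := by noncomm_ring
    _ = (P + P) * (x * x * (y * y)) := by rw [hPz, hPz]
    _ = (P * y + P * y) * (y * (x * x) + 2 * (z * x) + 2 * (x * z))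
          + 4 * (P * z * z) := by rw [e2]; noncomm_ring
    _ = P + 3 * P := by rw [hPy, hPz, hPz]; noncomm_ring
    _ = P := by rw [h3]; simp

end Abstract

noncomputable def P : uL := PP X Y Z

theorem PY : P * Y = 0 := PP_y Y3
theorem XP : X * P = 0 := x_PP X3 XZ
theorem PZ : P * Z = P := PP_z Z3 XZ YZ
theorem P_P : P * P = P := PP_PP (three_eq_zero uL) Y3 Z3 XY XZ YZ

/-- left factors of the matrix units -/
noncomputable def lf (i : Fin 2) : uL := if i = 0 then 1 else Y
/-- right factors of the matrix units -/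
noncomputable def rf (i : Fin 2) : uL := if i = 0 then 1 else X

theorem sandwich (a b : Fin 2) : P * rf a * (lf b * P) = if a = b then P else 0 := by
  fin_cases a <;> fin_cases b
  · simp [lf, rf, P_P]
  · simp [lf, rf, ← mul_assoc, PY]
  · simp [lf, rf, mul_assoc, XP]
  · simp only [lf, rf]
    have : P * X * (Y * P) = P * Y * (X * P) + P * Z * P := by
      calc P * X * (Y * P) = P * (X * Y) * P := by noncomm_ring
        _ = P * Y * (X * P) + P * Z * P := by rw [XY]; noncomm_ring
    simp [this, PY, PZ, P_P]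

/-- the matrix units -/
noncomputable def E (a b : Fin 2) : uL := lf a * P * rf b

theorem E_mul (a b c d : Fin 2) : E a b * E c d = if b = c then E a d else 0 := by
  have : E a b * E c d = lf a * (P * rf b * (lf c * P)) * rf d := by
    unfold E; noncomm_ring
  rw [this, sandwich]
  split_ifs <;> simp [E]

/-- the embedding of two by two matrices -/
noncomputable def emb : Matrix (Fin 2) (Fin 2) K →ₙₐ[K] uL where
  toFun M := ∑ a, ∑ b, M a b • E a b
  map_smul' t M := by
    simp [smul_smul]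
  map_zero' := by simp
  map_add' M N := by
    simp [add_smul, Finset.sum_add_distrib]
  map_mul' M N := by
    simp only [Fin.sum_univ_two, Matrix.mul_apply, add_mul, mul_add, smul_mul_smul_comm, E_mul]
    simp [add_smul]
    abel

theorem emb_apply (M : Matrix (Fin 2) (Fin 2) K) : emb M = ∑ a, ∑ b, M a b • E a b := rfl

/-- the three dimensional representation -/
def rho (v : H) : Matrix (Fin 3) (Fin 3) K :=
  !![v.c, v.a, 0; v.b, v.c, 2 * v.a; 0, v.b, v.c]

def rhoLie : H →ₗ⁅K⁆ Matrix (Fin 3) (Fin 3) K where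
  toFun := rho
  map_add' u v := by
    ext i k
    fin_cases i <;> fin_cases k <;> simp [rho]
    ring
  map_smul' t v := by
    ext i k
    fin_cases i <;> fin_cases k <;> simp [rho]
    ring
  map_lie' := by
    intro u v
    have h3 : (3 : K) = 0 := by decide
    ext i k
    rw [LieRing.of_associative_ring_bracket]
    fin_cases i <;> fin_cases k <;> simp [rho]
    all_goals first
      | ring1
      | linear_combination (u.a * v.b - u.b * v.a) * h3

theorem rho_cube (v : H) : rho v ^ 3 = rho (pmap v) := by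
  have : ∀ a b c : K, rho (mk a b c) ^ 3 = rho (mk 0 0 c) := by decide
  exact this v.a v.b v.c

noncomputable def rep : uL →ₐ[K] Matrix (Fin 3) (Fin 3) K :=
  RingQuot.liftAlgHom K ⟨UniversalEnvelopingAlgebra.lift K rhoLie, by
    rintro a b ⟨x, rfl, rfl⟩
    rw [map_pow, UniversalEnvelopingAlgebra.lift_ι_apply, UniversalEnvelopingAlgebra.lift_ι_apply]
    exact rho_cube x⟩

theorem rep_j (v : H) : rep (j v) = rho v := by
  unfold rep j
  rw [RingQuot.liftAlgHom_mkAlgHom_apply, UniversalEnvelopingAlgebra.lift_ι_apply]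
  rfl

theorem P_ne : P ≠ 0 := by
  intro h
  have h1 : rep P = PP (rho (mk 1 0 0)) (rho (mk 0 1 0)) (rho (mk 0 0 1)) := by
    unfold P PP X Y Z
    simp only [map_mul, map_add, rep_j]
  rw [h, map_zero] at h1
  revert h1
  decide

theorem emb_pow (M : Matrix (Fin 2) (Fin 2) K) (k : ℕ) : emb M ^ (k + 1) = emb (M ^ (k + 1)) := by
  induction k with
  | zero => simp
  | succ k ih => rw [pow_succ, ih, ← map_mul, ← pow_succ]

theorem mat_identity (M : Matrix (Fin 2) (Fin 2) K) : M ^ 26 = M ^ 2 := by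
  have h : ∀ a b c d : K, (!![a, b; c, d] : Matrix (Fin 2) (Fin 2) K) ^ 8 * !![a, b; c, d] ^ 8 *
      !![a, b; c, d] ^ 8 * !![a, b; c, d] ^ 2 = !![a, b; c, d] ^ 2 := by
    intro a b c d
    simp only [pow_succ, pow_zero, one_mul, Matrix.mul_fin_two]
    revert a b c d
    decide +kernel
  have h2 := h (M 0 0) (M 0 1) (M 1 0) (M 1 1)
  rw [← Matrix.eta_fin_two M] at h2
  rw [← h2, ← pow_add, ← pow_add, ← pow_add]

/-- the subalgebra -/
noncomputable def R : NonUnitalSubalgebra K uL := NonUnitalAlgHom.range emb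

theorem mem_R {r : uL} (h : r ∈ R) : ∃ M, emb M = r := h

theorem R_PI : ∃ m : ℕ, ∃ φ : FreeAlgebra K (Fin m), φ ≠ 0 ∧
    ∀ r : Fin m → uL, (∀ i, r i ∈ R) → FreeAlgebra.lift K r φ = 0 := by
  refine ⟨1, FreeAlgebra.ι K 0 ^ 26 - FreeAlgebra.ι K 0 ^ 2, ?_, ?_⟩
  · intro h
    have h1 := congrArg (FreeAlgebra.lift K (fun _ : Fin 1 => (Polynomial.X : Polynomial K))) h
    simp only [map_sub, map_pow, FreeAlgebra.lift_ι_apply, map_zero] at h1
    have h2 := congrArg (fun q => Polynomial.coeff q 2) h1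
    simp [Polynomial.coeff_X_pow] at h2
  · intro r hr
    obtain ⟨M, hM⟩ := mem_R (hr 0)
    simp only [map_sub, map_pow, FreeAlgebra.lift_ι_apply]
    rw [← hM, emb_pow M 25, emb_pow M 1, mat_identity, sub_self]

theorem R_S4 (r : Fin (2 * 2) → uL) (hr : ∀ i, r i ∈ R) :
    (∑ σ : Equiv.Perm (Fin (2 * 2)),
      ((Equiv.Perm.sign σ : ℤˣ) : ℤ) • (List.ofFn fun i => r (σ i)).prod) = 0 := by
  choose A hA using fun i => mem_R (hr i)
  have h := congrArg emb (Pool.Agent.H96Z.S4.s4_matrix (F := K) A)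
  rw [map_sum, map_zero] at h
  rw [← h]
  refine Finset.sum_congr rfl fun σ _ => ?_
  rw [map_zsmul, map_mul, map_mul, map_mul, hA, hA, hA, hA]
  simp [List.ofFn_succ]

theorem R_S2 : ¬ ∃ t : ℕ, 1 ≤ t ∧ ∀ r : Fin (2 * 1) → uL, (∀ i, r i ∈ R) →
    (∑ σ : Equiv.Perm (Fin (2 * 1)),
      ((Equiv.Perm.sign σ : ℤˣ) : ℤ) • (List.ofFn fun i => r (σ i)).prod) ^ t = 0 := by
  rintro ⟨t, -, h⟩
  have m1 : E 0 1 ∈ R := ⟨!![0, 1; 0, 0], by show emb _ = _; simp [emb_apply]⟩
  have m2 : E 1 0 ∈ R := ⟨!![0, 0; 1, 0], by show emb _ = _; simp [emb_apply]⟩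
  have h1 := h ![E 0 1, E 1 0] (by
    intro i
    fin_cases i
    · exact m1
    · exact m2)
  have hu : (Finset.univ : Finset (Equiv.Perm (Fin (2 * 1)))) = {1, Equiv.swap 0 1} := by decide
  have hne : (1 : Equiv.Perm (Fin (2 * 1))) ≠ Equiv.swap 0 1 := by decide
  rw [hu, Finset.sum_pair hne] at h1
  have h2 : (((Equiv.Perm.sign (1 : Equiv.Perm (Fin (2 * 1))) : ℤˣ) : ℤ) •
      (List.ofFn fun i => ![E 0 1, E 1 0] ((1 : Equiv.Perm (Fin (2 * 1))) i)).prod +
      ((Equiv.Perm.sign (Equiv.swap (0 : Fin (2 * 1)) 1) : ℤˣ) : ℤ) •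
      (List.ofFn fun i => ![E 0 1, E 1 0] ((Equiv.swap (0 : Fin (2 * 1)) 1) i)).prod) =
      E 0 0 - E 1 1 := by
    simp [List.ofFn_succ, E_mul, sub_eq_add_neg]
  rw [h2] at h1
  have h3 : (E 0 0 - E 1 1) * E 0 0 = E 0 0 := by simp [sub_mul, E_mul]
  have h4 : ∀ k : ℕ, (E 0 0 - E 1 1) ^ k * E 0 0 = E 0 0 := by
    intro k
    induction k with
    | zero => simp
    | succ k ih => rw [pow_succ, mul_assoc, h3, ih]
  have h5 := h4 t
  rw [h1, zero_mul] at h5
  apply P_ne
  simpa [E, lf, rf] using h5.symm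

end Pool.Agent.H96Z.Heis
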